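import Mathlib
import Pool.Agent.R464.HG.Perturb
import Pool.Agent.R464.HG.Fiber

/-!
# Graphs of generic homeomorphisms of the cube

For `d ≥ 2` the set of the homeomorphisms `f` of `[0,1]^d` whose graph has σ-finite
`d`-dimensional Hausdorff measure is meagre in the topology of uniform convergence.

If the graph of `f` is σ-finite, then for almost every `p` the set of the `t` with
`f (t, p_1, …, p_{d-1})_0 = p_0` is countable. For generic `f` this set is a nonempty perfect set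
for a set of points `p` of positive measure.
-/

set_option autoImplicit false

open MeasureTheory Set Filter Topology unitInterval

namespace Pool.Agent.Results.MP_c4f89b_an.NonSigmaFinite

/-- The space `Homeo([0,1]^d)`: a subspace of the space of continuous maps of `[0,1]^d` into
itself with the topology of uniform convergence. -/
abbrev HomeoCube (d : ℕ) : Type := {f : C(Fin d → I, Fin d → I) // IsHomeomorph f}

/-- The graph of `f`, a subset of `ℝ^(2d)`. -/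
def graph {d : ℕ} (f : HomeoCube d) : Set (EuclideanSpace ℝ (Fin d ⊕ Fin d)) :=
  {z | ∃ x : Fin d → I, (∀ i, z (Sum.inl i) = x i) ∧ ∀ i, z (Sum.inr i) = f.1 x i}

/-- The `d`-dimensional Hausdorff measure is σ-finite on the graph of `f`: the graph is a
countable union of sets of finite measure. -/
def SigmaFiniteGraph {d : ℕ} (f : HomeoCube d) : Prop :=
  ∃ A : ℕ → Set (EuclideanSpace ℝ (Fin d ⊕ Fin d)),
    graph f = ⋃ n, A n ∧ ∀ n, μH[(d : ℝ)] (A n) < ⊤

open R464.HG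

variable {n : ℕ}

theorem two_zeros {w : ℝ → ℝ} (hw : Continuous w) {a b y : ℝ} (h : DoubleCross w a b y) :
    ∃ s1 ∈ Icc a b, ∃ s2 ∈ Icc a b, s1 < s2 ∧ w s1 = y ∧ w s2 = y := by
  obtain ⟨c, hc, ⟨t1, h1, t2, h2, h3, h4⟩, ⟨t3, h5, t4, h6, h7, h8⟩⟩ := h
  obtain ⟨s1, hs1, e1⟩ := intermediate_value_uIcc (a := t1) (b := t2) hw.continuousOn
    (mem_uIcc.mpr (Or.inl ⟨h3.le, h4.le⟩))
  obtain ⟨s2, hs2, e2⟩ := intermediate_value_uIcc (a := t3) (b := t4) hw.continuousOn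
    (mem_uIcc.mpr (Or.inl ⟨h7.le, h8.le⟩))
  have n1 : s1 ≠ t1 := by rintro rfl; linarith
  have n2 : s1 ≠ t2 := by rintro rfl; linarith
  have n3 : s2 ≠ t3 := by rintro rfl; linarith
  have n4 : s2 ≠ t4 := by rintro rfl; linarith
  have l1 : s1 < c := by
    rcases mem_uIcc.mp hs1 with ⟨_, k⟩ | ⟨_, k⟩
    · exact lt_of_lt_of_le (lt_of_le_of_ne k n2) h2.2
    · exact lt_of_lt_of_le (lt_of_le_of_ne k n1) h1.2
  have l2 : c < s2 := by
    rcases mem_uIcc.mp hs2 with ⟨k, _⟩ | ⟨k, _⟩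
    · exact lt_of_le_of_lt h5.1 (lt_of_le_of_ne k n3.symm)
    · exact lt_of_le_of_lt h6.1 (lt_of_le_of_ne k n4.symm)
  have m1 : s1 ∈ Icc a c := uIcc_subset_Icc h1 h2 hs1
  have m2 : s2 ∈ Icc c b := uIcc_subset_Icc h5 h6 hs2
  exact ⟨s1, ⟨m1.1, by linarith [hc.2]⟩, s2, ⟨by linarith [hc.1], m2.2⟩, by linarith, e1, e2⟩

/-- The bad set of `f`. -/
def Bad (f : HomeoCube (n + 2)) (a b : ℝ) : Set (Fin (n + 2) → ℝ) :=
  Zs f.1 a b \ Ns f.1 a b

theorem meas_Bad (f : HomeoCube (n + 2)) (a b : ℝ) : MeasurableSet (Bad f a b) :=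
  measurableSet_Bad f.1.continuous a b

theorem Bad_subset (f : HomeoCube (n + 2)) (a b : ℝ) :
    Bad f a b ⊆ Icc (0 : Fin (n + 2) → ℝ) 1 := fun _ hp => hp.1.1

theorem vol_cube : volume (Icc (0 : Fin (n + 2) → ℝ) 1) ≠ ⊤ :=
  isCompact_Icc.measure_lt_top.ne

theorem unif {f : HomeoCube (n + 2)} {g : ℕ → HomeoCube (n + 2)}
    (h : Tendsto g atTop (𝓝 f)) : ∀ ε > 0, ∀ᶠ k in atTop, ∀ x, dist ((g k).1 x) (f.1 x) < ε := by
  intro ε hε
  filter_upwards [Metric.tendsto_nhds.mp h ε hε] with k hk x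
  refine lt_of_le_of_lt ?_ hk
  exact ContinuousMap.dist_apply_le_dist x

theorem ptwise {f : HomeoCube (n + 2)} {g : ℕ → HomeoCube (n + 2)}
    (h : Tendsto g atTop (𝓝 f)) (x : Fin (n + 2) → I) :
    Tendsto (fun k => (g k).1 x) atTop (𝓝 (f.1 x)) := by
  rw [Metric.tendsto_nhds]
  intro ε hε
  filter_upwards [unif h ε hε] with k hk
  exact hk x

theorem isOpen_smallBad (a b : ℝ) (ε : ENNReal) :
    IsOpen {f : HomeoCube (n + 2) | volume (Bad f a b) < ε} := by
  rw [← isClosed_compl_iff]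
  refine isClosed_of_closure_subset fun f hf => ?_
  obtain ⟨g, hg, hlim⟩ := mem_closure_iff_seq_limit.mp hf
  simp only [mem_compl_iff, Set.mem_ofPred_eq, not_lt] at hg ⊢
  refine le_measure_of_frequently (B := fun k => Bad (g k) a b)
    (fun k => meas_Bad (g k) a b) (vol_cube (n := n)) (fun k => Bad_subset (g k) a b) ?_ hg
  refine Eventually.of_forall fun p hp => ?_
  refine ⟨Zs_of_frequently f.1.continuous (g := fun k => (g k).1) (unif hlim)
    (hp.mono fun k hk => hk.1), fun hN => ?_⟩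
  have := Ns_eventually (g := fun k => (g k).1) (ptwise hlim) hN
  obtain ⟨k, hk1, hk2⟩ := (hp.and_eventually this).exists
  exact hk1.2 hk2

theorem isOpen_posN :
    IsOpen {f : HomeoCube (n + 2) | 0 < volume (Ns f.1 0 1)} := by
  rw [← isClosed_compl_iff]
  refine isClosed_of_closure_subset fun f hf => ?_
  obtain ⟨g, hg, hlim⟩ := mem_closure_iff_seq_limit.mp hf
  simp only [mem_compl_iff, Set.mem_ofPred_eq, not_lt, nonpos_iff_eq_zero] at hg ⊢
  refine measure_mono_null (t := ⋃ k, Ns (g k).1 0 1) (fun p hp => ?_)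
    (measure_iUnion_null hg)
  obtain ⟨k, hk⟩ := (Ns_eventually (g := fun k => (g k).1) (ptwise hlim) hp).exists
  exact mem_iUnion.mpr ⟨k, hk⟩

/-- The perturbations, as elements of the space. -/
theorem perturb' (f : HomeoCube (n + 2)) {r : ℝ} (hr : 0 < r) :
    ∃ g : ℕ → HomeoCube (n + 2), (∀ k, g k ∈ Metric.ball f r) ∧
      (∀ a b : ℝ, 0 ≤ a → a < b → b ≤ 1 → ∀ᵐ p, ∀ᶠ k in atTop, p ∉ Bad (g k) a b) ∧
      (∃ W : Set (Fin (n + 2) → ℝ), IsOpen W ∧ W.Nonempty ∧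
        ∀ᵐ p, p ∈ W → ∀ᶠ k in atTop, p ∈ Ns (g k).1 0 1) := by
  obtain ⟨g, hg1, hg2, hg3, hg4⟩ := perturb f.2 (half_pos hr)
  refine ⟨fun k => ⟨⟨g k, (hg1 k).continuous⟩, hg1 k⟩, fun k => ?_, hg3, hg4⟩
  rw [Metric.mem_ball, Subtype.dist_eq]
  refine lt_of_le_of_lt ((ContinuousMap.dist_le (half_pos hr).le).mpr fun x => ?_) (half_lt_self hr)
  exact hg2 k x

theorem dense_smallBad {a b : ℝ} (ha : 0 ≤ a) (hab : a < b) (hb : b ≤ 1) {ε : ENNReal}
    (hε : 0 < ε) : Dense {f : HomeoCube (n + 2) | volume (Bad f a b) < ε} := by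
  rw [Metric.dense_iff]
  intro f r hr
  obtain ⟨g, hg1, hg2, -⟩ := perturb' f hr
  by_contra hcon
  have hall : ∀ k, ε ≤ volume (Bad (g k) a b) := fun k => by
    by_contra hk
    exact hcon ⟨g k, hg1 k, not_le.mp hk⟩
  have := le_measure_of_frequently (D := ∅) (fun k => meas_Bad (g k) a b) (vol_cube (n := n))
    (fun k => Bad_subset (g k) a b)
    (by
      filter_upwards [hg2 a b ha hab hb] with p hp hfreq
      obtain ⟨k, hk1, hk2⟩ := (hfreq.and_eventually hp).exists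
      exact hk2 hk1) hall
  rw [measure_empty] at this
  exact absurd this (not_le.mpr hε)

theorem dense_posN : Dense {f : HomeoCube (n + 2) | 0 < volume (Ns f.1 0 1)} := by
  rw [Metric.dense_iff]
  intro f r hr
  obtain ⟨g, hg1, -, W, hW1, hW2, hW3⟩ := perturb' f hr
  by_contra hcon
  have hall : ∀ k, volume (Ns (g k).1 0 1) = 0 := fun k => by
    by_contra hk
    exact hcon ⟨g k, hg1 k, pos_iff_ne_zero.mpr hk⟩
  have h1 : ∀ᵐ p : Fin (n + 2) → ℝ, ∀ k, p ∉ Ns (g k).1 0 1 := by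
    rw [ae_all_iff]
    intro k
    rw [ae_iff]; simpa using hall k
  have h2 : ∀ᵐ p : Fin (n + 2) → ℝ, p ∉ W := by
    filter_upwards [h1, hW3] with p hp1 hp2 hpW
    obtain ⟨k, hk⟩ := (hp2 hpW).exists
    exact hp1 k hk
  have h3 : volume W = 0 := by
    rw [ae_iff] at h2; simpa using h2
  exact (hW1.measure_pos volume hW2).ne' h3

/-- The projection of the graph. -/
def proj (z : EuclideanSpace ℝ (Fin (n + 2) ⊕ Fin (n + 2))) : Fin (n + 2) → ℝ :=
  fun i => if i = 0 then z (Sum.inr 0) else z (Sum.inl i)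

theorem proj_lipschitz : LipschitzWith 1 (proj (n := n)) := by
  refine LipschitzWith.of_dist_le_mul fun z w => ?_
  rw [NNReal.coe_one, one_mul, dist_pi_le_iff dist_nonneg]
  intro i
  have hc : ∀ j, dist (z j) (w j) ≤ dist z w := fun j => by
    rw [dist_eq_norm, dist_eq_norm]
    exact PiLp.norm_apply_le (z - w) j
  unfold proj
  split_ifs
  · exact hc _
  · exact hc _

/-- A homeomorphism satisfying the generic conditions has a non-σ-finite graph. -/
theorem not_sigmaFinite (f : HomeoCube (n + 2)) (h1 : 0 < volume (Ns f.1 0 1))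
    (h2 : ∀ a b : ℚ, (0 : ℝ) < a → (a : ℝ) < b → (b : ℝ) < 1 → volume (Bad f a b) = 0) :
    ¬ SigmaFiniteGraph f := by
  rintro ⟨A, hA1, hA2⟩
  have hfin : ∀ᵐ p : Fin (n + 2) → ℝ, ∀ m, (A m ∩ proj ⁻¹' {p}).Finite := by
    rw [ae_all_iff]
    intro m
    exact ae_finite_fiber (A m) (hA2 m) proj proj_lipschitz
  have hbad : ∀ᵐ p : Fin (n + 2) → ℝ, ∀ q : ℚ × ℚ, (0 : ℝ) < q.1 → (q.1 : ℝ) < q.2 →
      (q.2 : ℝ) < 1 → p ∉ Bad f q.1 q.2 := by
    rw [ae_all_iff]
    intro q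
    by_cases h : (0 : ℝ) < q.1 ∧ (q.1 : ℝ) < q.2 ∧ (q.2 : ℝ) < 1
    · have : ∀ᵐ p : Fin (n + 2) → ℝ, p ∉ Bad f q.1 q.2 := by
        rw [ae_iff]; simpa using h2 q.1 q.2 h.1 h.2.1 h.2.2
      filter_upwards [this] with p hp _ _ _
      exact hp
    · exact Eventually.of_forall fun p a1 a2 a3 => absurd ⟨a1, a2, a3⟩ h
  have hUc : ∀ t : ℝ, Continuous fun p : Fin (n + 2) → ℝ => UU f.1 p t := fun t =>
    (continuous_UU f.1.continuous).comp (continuous_id.prodMk continuous_const)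
  have hend : ∀ t : ℝ, ∀ᵐ p : Fin (n + 2) → ℝ, UU f.1 p t ≠ p 0 := by
    intro t
    rw [ae_iff]
    have hB : MeasurableSet {p : Fin (n + 2) → ℝ | ¬ UU f.1 p t ≠ p 0} := by
      have : {p : Fin (n + 2) → ℝ | ¬ UU f.1 p t ≠ p 0} = {p | UU f.1 p t = p 0} := by
        ext p; simp
      rw [this]
      exact (isClosed_eq (hUc t) (continuous_apply 0)).measurableSet
    refine null_of_sections_fst hB fun x' => ?_
    refine Set.Subsingleton.measure_zero ?_ _
    intro s hs s' hs'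
    simp only [Set.mem_ofPred_eq, not_not, Fin.cons_zero, UU] at hs hs'
    rw [← hs, ← hs', pt_cons s s']
  obtain ⟨p, hpN, hp1, hp2, hp3, hp4⟩ : ∃ p ∈ Ns f.1 0 1,
      (∀ m, (A m ∩ proj ⁻¹' {p}).Finite) ∧
      (∀ q : ℚ × ℚ, (0 : ℝ) < q.1 → (q.1 : ℝ) < q.2 → (q.2 : ℝ) < 1 → p ∉ Bad f q.1 q.2) ∧
      UU f.1 p 0 ≠ p 0 ∧ UU f.1 p 1 ≠ p 0 := by
    by_contra hcon
    push Not at hcon
    refine h1.ne' (measure_mono_null ?_ (ae_iff.mp
      (hfin.and (hbad.and ((hend 0).and (hend 1))))))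
    intro p hp hh
    exact hh.2.2.2 (hcon p hp hh.1 hh.2.1 hh.2.2.1)
  have hpI := hpN.1
  have hw : Continuous fun t => UU f.1 p t :=
    (continuous_UU f.1.continuous).comp (continuous_const.prodMk continuous_id)
  -- the fibre
  let F : Set ℝ := {t | t ∈ Icc (0 : ℝ) 1 ∧ UU f.1 p t = p 0}
  have hFne : F.Nonempty := by
    obtain ⟨s, hs, -, -, -, e, -⟩ := two_zeros hw hpN.2
    exact ⟨s, hs, e⟩
  have hFclosed : IsClosed F := isClosed_Icc.inter (isClosed_eq hw continuous_const)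
  have hFperf : Perfect F := by
    refine ⟨hFclosed, preperfect_iff_nhds.mpr ?_⟩
    rintro t0 ⟨ht0, hteq⟩ U hU
    have h0 : 0 < t0 := lt_of_le_of_ne ht0.1 (by rintro rfl; exact hp3 hteq)
    have h1 : t0 < 1 := lt_of_le_of_ne ht0.2 (by rintro rfl; exact hp4 hteq)
    obtain ⟨ε, hε, hball⟩ := Metric.mem_nhds_iff.mp hU
    obtain ⟨a, ha1, ha2⟩ := exists_rat_btwn (max_lt h0 (by linarith : t0 - ε < t0))
    obtain ⟨b, hb1, hb2⟩ := exists_rat_btwn (lt_min h1 (by linarith : t0 < t0 + ε))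
    have g1 : (0 : ℝ) < a := lt_of_le_of_lt (le_max_left _ _) ha1
    have g2 : t0 - ε < a := lt_of_le_of_lt (le_max_right _ _) ha1
    have g3 : (b : ℝ) < 1 := lt_of_lt_of_le hb2 (min_le_left _ _)
    have g4 : (b : ℝ) < t0 + ε := lt_of_lt_of_le hb2 (min_le_right _ _)
    have hZ : p ∈ Zs f.1 a b := ⟨hpI, t0, ⟨ha2.le, hb1.le⟩, hteq⟩
    have hN : p ∈ Ns f.1 a b := by
      by_contra hN
      exact hp2 (a, b) g1 (by simp only; linarith) g3 ⟨hZ, hN⟩
    obtain ⟨s1, hs1, s2, hs2, hs12, e1, e2⟩ := two_zeros hw hN.2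
    have hmem : ∀ s ∈ Icc (a : ℝ) b, UU f.1 p s = p 0 → s ∈ U ∩ F := by
      intro s hs hse
      refine ⟨hball ?_, ⟨by linarith [hs.1], by linarith [hs.2]⟩, hse⟩
      rw [Metric.mem_ball, Real.dist_eq, abs_lt]
      constructor <;> linarith [hs.1, hs.2]
    by_cases hst : s1 = t0
    · exact ⟨s2, hmem s2 hs2 e2, by rw [← hst]; exact hs12.ne'⟩
    · exact ⟨s1, hmem s1 hs1 e1, hst⟩
  -- the fibre is countable
  have hcount : F.Countable := by
    let Z : ℝ → EuclideanSpace ℝ (Fin (n + 2) ⊕ Fin (n + 2)) := fun t =>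
      WithLp.toLp 2 (Sum.elim (fun i => (pt p t i : ℝ)) (fun i => (f.1 (pt p t) i : ℝ)))
    have hZinj : InjOn Z F := by
      rintro t ⟨ht, -⟩ t' ⟨ht', -⟩ hZ
      have h3 : Z t (Sum.inl 0) = Z t' (Sum.inl 0) := by rw [hZ]
      simp only [Z, Sum.elim_inl] at h3
      rwa [pt_zero p ht, pt_zero p ht'] at h3
    have hsub : Z '' F ⊆ ⋃ m, (A m ∩ proj ⁻¹' {p}) := by
      rintro _ ⟨t, ⟨ht, hteq⟩, rfl⟩
      have hg : Z t ∈ graph f := ⟨pt p t, fun i => by simp [Z], fun i => by simp [Z]⟩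
      rw [hA1] at hg
      obtain ⟨m, hm⟩ := mem_iUnion.mp hg
      refine mem_iUnion.mpr ⟨m, hm, ?_⟩
      simp only [mem_preimage, mem_singleton_iff]
      funext i
      refine Fin.cases ?_ (fun i => ?_) i
      · simp only [proj, if_true, Z, Sum.elim_inr]
        exact hteq
      · simp only [proj, Fin.succ_ne_zero, if_false, Z, Sum.elim_inl]
        exact pt_succ hpI t i
    have hc : (Z '' F).Countable :=
      (countable_iUnion fun m => (hp1 m).countable).mono hsub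
    exact Set.countable_of_injective_of_countable_image hZinj hc
  obtain ⟨φ, hφ1, -, hφ2⟩ := hFperf.exists_nat_bool_injection hFne
  have h5 : (range φ).Countable := hcount.mono hφ1
  have h6 : Countable (ℕ → Bool) := by
    have : Countable (range φ) := h5.to_subtype
    exact (Equiv.ofInjective φ hφ2).countable_iff.mpr this
  have h7 : Cardinal.mk (ℕ → Bool) ≤ Cardinal.aleph0 := Cardinal.mk_le_aleph0_iff.mpr h6
  have h8 : Cardinal.mk (ℕ → Bool) = Cardinal.continuum := by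
    rw [← Cardinal.power_def, Cardinal.mk_bool, Cardinal.mk_nat, Cardinal.two_power_aleph0]
  rw [h8] at h7
  exact absurd h7 (not_le.mpr Cardinal.aleph0_lt_continuum)

theorem result (d : ℕ) (hd : 2 ≤ d) : IsMeagre {f : HomeoCube d | SigmaFiniteGraph f} := by
  obtain ⟨n, rfl⟩ : ∃ n, d = n + 2 := ⟨d - 2, by omega⟩
  have h1 : {f : HomeoCube (n + 2) | 0 < volume (Ns f.1 0 1)} ∈ residual (HomeoCube (n + 2)) :=
    residual_of_dense_open isOpen_posN dense_posN
  have h2 : ∀ q : (ℚ × ℚ) × ℕ, {f : HomeoCube (n + 2) | (0 : ℝ) < q.1.1 → (q.1.1 : ℝ) < q.1.2 →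
      (q.1.2 : ℝ) < 1 → volume (Bad f q.1.1 q.1.2) < ((q.2 : ENNReal) + 1)⁻¹} ∈
      residual (HomeoCube (n + 2)) := by
    intro q
    by_cases h : (0 : ℝ) < q.1.1 ∧ (q.1.1 : ℝ) < q.1.2 ∧ (q.1.2 : ℝ) < 1
    · refine mem_of_superset (residual_of_dense_open
        (isOpen_smallBad (n := n) (q.1.1 : ℝ) q.1.2 ((q.2 : ENNReal) + 1)⁻¹)
        (dense_smallBad h.1.le h.2.1 h.2.2.le (ENNReal.inv_pos.mpr (by finiteness)))) ?_
      intro f hf _ _ _
      exact hf
    · refine mem_of_superset univ_mem fun f _ a1 a2 a3 => absurd ⟨a1, a2, a3⟩ h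
  have h3 := countable_iInter_mem.mpr h2
  change {f : HomeoCube (n + 2) | SigmaFiniteGraph f}ᶜ ∈ residual (HomeoCube (n + 2))
  refine mem_of_superset (inter_mem h1 h3) ?_
  rintro f ⟨hf1, hf2⟩
  refine not_sigmaFinite f hf1 fun a b ha hab hb => ?_
  rw [mem_iInter] at hf2
  by_contra hne
  obtain ⟨m, hm⟩ := ENNReal.exists_inv_nat_lt hne
  have := hf2 ((a, b), m) ha hab hb
  have h4 : ((m : ENNReal) + 1)⁻¹ ≤ (m : ENNReal)⁻¹ := ENNReal.inv_le_inv.mpr le_self_add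
  exact absurd (this.trans_le h4) (not_lt.mpr hm.le)

end Pool.Agent.Results.MP_c4f89b_an.NonSigmaFinite
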